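import Pool.Agent.H20.ER3.Lib

/-!
# Contraction of an interval of a rung to one root
-/

set_option autoImplicit false

open Pool.Agent.H48.ER Pool.Agent.H52.ER2 Pool.Agent.H66.ER2 Pool.Agent.H20.ER3

namespace Pool.Agent.H13.ER3

theorem pf_C1 (hPS : U_PS) (hPR : U_PR) (hGE : U_GE) : U_C1 := by
  classical
  intro V _ H R n g k l hE hmr hkl hl hk0 hl0 hall
  have hp := hmr.pi
  -- the length of the interval is even
  have hev : Even (l - k) := by
    refine hGE V H R (l - k) (g 0 k) (g 0 l) _ hE (hPS _ _ n g 0 k l hp (by omega) hl) (by omega)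
      hk0 hl0 ?_
    rintro w ⟨x, hx1, hx2, rfl⟩
    by_cases e1 : x = k
    · left; rw [e1]
    by_cases e2 : x = l
    · right; left; rw [e2]
    · right; right; exact hall x (by omega) (by omega)
  -- the vertices of the interval
  have hex : ∀ x, ∃ v : V, k < x → x < l → v ∈ R ∧ g 0 x = Sum.inl v := by
    intro x
    by_cases hx : k < x ∧ x < l
    · obtain ⟨r, hr, e⟩ := hall x hx.1 hx.2
      exact ⟨r, fun _ _ => ⟨hr, e⟩⟩
    · obtain ⟨r, hr, e⟩ := hall (k + 1) (by omega) (by omega)
      exact ⟨r, fun h1 h2 => absurd ⟨h1, h2⟩ hx⟩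
  choose f hf using hex
  set F : Set V := {v | ∃ x, k < x ∧ x < l ∧ f x = v} with hF
  have hFR : F ⊆ R := by
    rintro v ⟨x, h1, h2, rfl⟩
    exact (hf x h1 h2).1
  have hfF : ∀ x, k < x → x < l → f x ∈ F := fun x h1 h2 => ⟨x, h1, h2, rfl⟩
  have hFC : Cn H F := by
    refine ip_cn (n := l - k - 2) (x := f (k + 1)) (y := f (l - 1))
      ⟨fun i => f (k + 1 + i), rfl, ?_, ?_, ?_, ?_⟩
    · show f (k + 1 + (l - k - 2)) = f (l - 1)
      congr 1; omega
    · intro a b ha hb e
      have ea := (hf (k + 1 + a) (by omega) (by omega)).2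
      have eb := (hf (k + 1 + b) (by omega) (by omega)).2
      have e' : f (k + 1 + a) = f (k + 1 + b) := e
      rw [e'] at ea
      have := (hp.inj 0 0 _ _ (by omega) (by omega) (ea.trans eb.symm)).2
      omega
    · intro a b ha hb
      have ea := (hf (k + 1 + a) (by omega) (by omega)).2
      have eb := (hf (k + 1 + b) (by omega) (by omega)).2
      show H.Adj (f (k + 1 + a)) (f (k + 1 + b)) ↔ _
      rw [← mg_ll (G := H) (R := R), ← ea, ← eb, hp.adj 0 0 _ _ (by omega) (by omega)]
      constructor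
      · rintro (⟨_, h⟩ | ⟨h, _⟩)
        · omega
        · exact absurd rfl h
      · intro h
        exact Or.inl ⟨rfl, by omega⟩
    · ext v; constructor
      · rintro ⟨x, h1, h2, rfl⟩
        refine ⟨x - (k + 1), by omega, ?_⟩
        show f (k + 1 + (x - (k + 1))) = f x
        congr 1; omega
      · rintro ⟨i, hi, rfl⟩
        exact ⟨k + 1 + i, by omega, by omega, rfl⟩
  -- the neighbours of the root `F` among the remaining vertices
  have hadj : ∀ i x, x ≤ n i → ¬ (i = 0 ∧ k < x ∧ x < l) →
      ((MG H R).Adj (Sum.inr F) (g i x) ↔ i = 0 ∧ (x = k ∨ x = l)) := by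
    intro i x hx hno
    constructor
    · intro h
      obtain ⟨a, ea, ha⟩ := root_adj h
      obtain ⟨haR, _, _, v, ⟨y, hy1, hy2, rfl⟩, hav⟩ := ha
      have ey := (hf y hy1 hy2).2
      have h2 : (MG H R).Adj (g i x) (g 0 y) := by rw [ea, ey]; exact hav
      rw [hp.adj i 0 x y hx (by omega)] at h2
      rcases h2 with ⟨h3, h4⟩ | ⟨h3, h4 | h4⟩
      · exact ⟨h3, by have : ¬ (k < x ∧ x < l) := fun h => hno ⟨h3, h⟩
                      omega⟩
      · omega
      · omega
    · rintro ⟨rfl, h | h⟩
      · subst h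
        have e1 := (hf (x + 1) (by omega) (by omega))
        have h2 : (MG H R).Adj (Sum.inl (f (x + 1))) (g 0 x) := by
          rw [← e1.2, hp.adj 0 0 _ _ (by omega) (by omega)]
          exact Or.inl ⟨rfl, by omega⟩
        obtain ⟨a, ea, ha⟩ := inR_adj e1.1 h2
        rw [ea]
        refine ⟨fun haR => hk0 ⟨a, haR, ea⟩, hFR, hFC, _, hfF (x + 1) (by omega) (by omega),
          ha.symm⟩
      · subst h
        have e1 := (hf (x - 1) (by omega) (by omega))
        have h2 : (MG H R).Adj (Sum.inl (f (x - 1))) (g 0 x) := by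
          rw [← e1.2, hp.adj 0 0 _ _ (by omega) (by omega)]
          exact Or.inl ⟨rfl, by omega⟩
        obtain ⟨a, ea, ha⟩ := inR_adj e1.1 h2
        rw [ea]
        refine ⟨fun haR => hl0 ⟨a, haR, ea⟩, hFR, hFC, _, hfF (x - 1) (by omega) (by omega),
          ha.symm⟩
  -- the root `F` is not in the prism
  have hne : ∀ i x, x ≤ n i → Sum.inr F ≠ g i x := by
    intro i x hx e
    have h1 : Sum.inr F ∈ vI n g := ⟨i, x, hx, e.symm⟩
    have e1 := (hf (k + 1) (by omega) (by omega))
    have h2 : Sum.inl (f (k + 1)) ∈ vI n g := ⟨0, k + 1, by omega, e1.2⟩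
    exact (hmr.sp F h1 _ e1.1 h2).1 (hfF (k + 1) (by omega) (by omega))
  -- the new rung
  set m : ℕ := n 0 - (l - k) + 2 with hm
  set h : ℕ → V ⊕ Set V := fun x => if x ≤ k then g 0 x else
    if x = k + 1 then Sum.inr F else g 0 (x + (l - k) - 2) with hh
  have h1 : ∀ x, x ≤ k → h x = g 0 x := fun x hx => by simp [hh, hx]
  have h2 : h (k + 1) = Sum.inr F := by simp [hh]
  have h3 : ∀ x, k + 2 ≤ x → h x = g 0 (x + (l - k) - 2) := fun x hx => by
    have e1 : ¬ x ≤ k := by omega
    have e2 : ¬ x = k + 1 := by omega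
    simp [hh, e1, e2]
  -- every vertex of the new rung is the root or an old vertex
  have hcase : ∀ x, x ≤ m → (x = k + 1 ∧ h x = Sum.inr F) ∨ ∃ y, y ≤ n 0 ∧ h x = g 0 y ∧
      ¬ (k < y ∧ y < l) ∧ ((x ≤ k ∧ y = x) ∨ (k + 2 ≤ x ∧ y = x + (l - k) - 2)) := by
    intro x hx
    rcases Nat.lt_trichotomy x (k + 1) with e | e | e
    · exact Or.inr ⟨x, by omega, h1 x (by omega), by omega, Or.inl ⟨by omega, rfl⟩⟩
    · left; exact ⟨e, by rw [e]; exact h2⟩
    · exact Or.inr ⟨x + (l - k) - 2, by omega, h3 x (by omega), by omega,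
        Or.inr ⟨by omega, rfl⟩⟩
  have hPF : PF (MG H R) m h := by
    constructor
    · intro i j hi hj e
      rcases hcase i hi with ⟨ei, hi'⟩ | ⟨y, hy, hy', hny, hy2⟩ <;>
        rcases hcase j hj with ⟨ej, hj'⟩ | ⟨z, hz, hz', hnz, hz2⟩
      · omega
      · rw [hi', hz'] at e
        exact absurd e (hne 0 z hz)
      · rw [hj', hy'] at e
        exact absurd e.symm (hne 0 y hy)
      · rw [hy', hz'] at e
        have := (hp.inj 0 0 y z hy hz e).2
        omega
    · intro i j hi hj
      rcases hcase i hi with ⟨ei, hi'⟩ | ⟨y, hy, hy', hny, hy2⟩ <;>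
        rcases hcase j hj with ⟨ej, hj'⟩ | ⟨z, hz, hz', hnz, hz2⟩
      · rw [hi', hj']
        constructor
        · intro h'; exact absurd h' mg_rr
        · intro h'; omega
      · rw [hi', hz', hadj 0 z hz (fun h' => hnz h'.2)]
        constructor
        · rintro ⟨_, h'⟩; omega
        · intro h'; exact ⟨rfl, by omega⟩
      · rw [hj', hy', SimpleGraph.adj_comm, hadj 0 y hy (fun h' => hny h'.2)]
        constructor
        · rintro ⟨_, h'⟩; omega
        · intro h'; exact ⟨rfl, by omega⟩
      · rw [hy', hz', hp.adj 0 0 y z hy hz]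
        constructor
        · rintro (⟨_, h'⟩ | ⟨h', _⟩)
          · omega
          · exact absurd rfl h'
        · intro h'
          exact Or.inl ⟨rfl, by omega⟩
  have hPI := hPR _ (MG H R) n g m h hp (by omega) hPF (by
    intro j x y hj hx hy
    rcases hcase x hx with ⟨ex, hx'⟩ | ⟨z, hz, hz', hnz, hz2⟩
    · rw [hx']
      refine ⟨hne j y hy, ?_⟩
      rw [hadj j y hy (fun h' => hj h'.1)]
      constructor
      · rintro ⟨h', _⟩; exact absurd h' hj
      · rintro (h' | h') <;> omega
    · rw [hz']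
      constructor
      · intro e
        exact hj (hp.inj 0 j z y hz hy e).1.symm
      · rw [hp.adj 0 j z y hz hy]
        constructor
        · rintro (⟨h', _⟩ | ⟨_, h' | h'⟩)
          · exact absurd h'.symm hj
          · left; omega
          · right; omega
        · rintro (h' | h')
          · exact Or.inr ⟨fun e => hj e.symm, Or.inl (by omega)⟩
          · exact Or.inr ⟨fun e => hj e.symm, Or.inr (by omega)⟩)
  -- the vertices of the new prism
  have hvI : ∀ w ∈ vI (Function.update n 0 m) (Function.update g 0 h), w = Sum.inr F ∨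
      ∃ i x, x ≤ n i ∧ ¬ (i = 0 ∧ k < x ∧ x < l) ∧ g i x = w := by
    rintro w ⟨i, x, hx, rfl⟩
    by_cases hi : i = 0
    · subst hi
      rw [Function.update_self] at hx
      rw [Function.update_self]
      rcases hcase x hx with ⟨ex, hx'⟩ | ⟨z, hz, hz', hnz, hz2⟩
      · left; exact hx'
      · right
        exact ⟨0, z, hz, fun h' => hnz h'.2, hz'.symm⟩
    · rw [Function.update_of_ne hi] at hx
      rw [Function.update_of_ne hi]
      right
      exact ⟨i, x, hx, fun h' => hi h'.1, rfl⟩
  have hold : ∀ w ∈ vI (Function.update n 0 m) (Function.update g 0 h), w ≠ Sum.inr F →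
      w ∈ vI n g := by
    intro w hw hwF
    rcases hvI w hw with e | ⟨i, x, hx, _, e⟩
    · exact absurd e hwF
    · exact ⟨i, x, hx, e⟩
  have hodd : ∀ i, Odd (Function.update n 0 m i) := by
    intro i
    by_cases hi : i = 0
    · subst hi
      rw [Function.update_self]
      have := hmr.odd 0
      rw [Nat.odd_iff] at this ⊢
      rw [Nat.even_iff] at hev
      omega
    · rw [Function.update_of_ne hi]
      exact hmr.odd i
  have hsp : Sp H R (vI (Function.update n 0 m) (Function.update g 0 h)) := by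
    intro F' hF' r hr hrZ
    by_cases he : F' = F
    · subst he
      rcases hvI _ hrZ with e | ⟨i, x, hx, hno, e⟩
      · cases e
      constructor
      · rintro ⟨y, hy1, hy2, rfl⟩
        have e2 := (hf y hy1 hy2).2
        have := hp.inj i 0 x y hx (by omega) (e.trans e2.symm)
        exact hno ⟨this.1, by omega, by omega⟩
      · rintro v ⟨y, hy1, hy2, rfl⟩ hadj'
        have e2 := (hf y hy1 hy2).2
        have h4 : (MG H R).Adj (g i x) (g 0 y) := by rw [e, e2]; exact hadj'
        rw [hp.adj i 0 x y hx (by omega)] at h4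
        have h5 : i = 0 ∧ (x = k ∨ x = l) := by
          rcases h4 with ⟨h3', h4⟩ | ⟨h3', h4 | h4⟩
          · exact ⟨h3', by have : ¬ (k < x ∧ x < l) := fun h => hno ⟨h3', h⟩
                           omega⟩
          · omega
          · omega
        obtain ⟨rfl, h6 | h6⟩ := h5
        · rw [h6] at e; exact hk0 ⟨r, hr, e⟩
        · rw [h6] at e; exact hl0 ⟨r, hr, e⟩
    · exact hmr.sp F' (hold _ hF' (fun e => he (Sum.inr.inj e))) r hr
        (hold _ hrZ (fun e => by cases e))
  have hlt : (rv R (vI (Function.update n 0 m) (Function.update g 0 h))).ncard <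
      (rv R (vI n g)).ncard := by
    refine Set.ncard_lt_ncard ?_ (Set.toFinite _)
    refine Set.ssubset_iff_subset_ne.2 ⟨?_, ?_⟩
    · rintro r ⟨hr, hrZ⟩
      exact ⟨hr, hold _ hrZ (fun e => by cases e)⟩
    · intro e
      have e1 := (hf (k + 1) (by omega) (by omega))
      have h4 : f (k + 1) ∈ rv R (vI n g) := ⟨e1.1, 0, k + 1, by omega, e1.2⟩
      rw [← e] at h4
      rcases hvI _ h4.2 with e5 | ⟨i, x, hx, hno, e5⟩
      · cases e5
      · have := hp.inj i 0 x (k + 1) hx (by omega) (e5.trans e1.2.symm)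
        exact hno ⟨this.1, by omega, by omega⟩
  exact absurd (hmr.mn _ _ hPI hodd hsp) (by omega)

end Pool.Agent.H13.ER3
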